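import Pool.Agent.Helper87.UG.Loss
import Pool.Agent.Helper24.UG.Ker

/-! # UG-K3, K4: final statements -/

set_option autoImplicit false
open MeasureTheory Set Filter Topology
open Pool.Agent.Helper57.Zeta Pool.Agent.Helper57.LH Pool.Agent.Helper57.ED Pool.Agent.Helper54.LG
open Pool.Agent.Helper69.UG

namespace Pool.Agent.Helper87.UG

/-- K3: pointwise loss (`e = 1, 2`) -/
theorem loss_pt : ∃ C : ℝ, 0 < C ∧ ∀ T c Y t e : ℝ, 3 ≤ T → 0 < c → 0 < Y → Y ≤ c → e = 1 ∨ e = 2 →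
    |Pool.Agent.Helper69.UG.NX (XX T c / e) t - (MM (XX T c / e) t - SS (XX T c / e) t)| ≤
      C * ((Y / c) ^ 2 * near T c Y t + far T c Y t) :=
  loss_of Pool.Agent.Helper24.UG.qk_diff

/-- K4: the count from the kernel -/
theorem near_pt : ∃ C c2 : ℝ, 0 < C ∧ 0 < c2 ∧ ∀ T c Y t : ℝ, 3 ≤ T → 0 < c → 0 < Y → Y ≤ c2 * c →
    near T c Y t ≤ C * (MM (XX T c) t - SS (XX T c) t + far T c Y t) :=
  near_of Pool.Agent.Helper24.UG.qk_lower Pool.Agent.Helper24.UG.qk_diff3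

end Pool.Agent.Helper87.UG
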