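import Pool.Agent.Helper69.UG.Defs
import Pool.Agent.Helper54.LG.Pt

/-!
# UG-K3, K4: the loss from the zeros off the line

`NX - (MM - SS) = ∑ mx ρ (qk 0 b - qk a b)` by the explicit formula. For the zeros near the line `a ≤ Y / c ≤ 1` and the difference
is `O((Y/c)² / (1 + b²))`, for the others it is `O(exp (2 a) / (1 + b²))`.
-/

set_option autoImplicit false
open MeasureTheory Set Filter Topology
open Pool.Agent.Helper57.Zeta Pool.Agent.Helper57.LH Pool.Agent.Helper57.ED Pool.Agent.Helper54.LG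
open Pool.Agent.Helper69.UG

namespace Pool.Agent.Helper87.UG

/-- a majorant of the kernel by the summable function `fz` -/
theorem inv_fz {X : ℝ} (hX : 0 < X) (t : ℝ) (ρ : ZS) :
    mx ρ * (1 / (1 + zb X t ρ ^ 2)) ≤ (4 + 1 / X ^ 2) * fz ρ t := by
  have h := zs_re ρ
  have hm : 0 ≤ mx (ρ : ℂ) := mx_nonneg _
  set w : ℝ := t - (ρ:ℂ).im with hw
  have hzb : zb X t ρ = X * w := rfl
  rw [hzb]
  have h1 : 1 / (1 + (X * w) ^ 2) ≤ (4 + 1 / X ^ 2) * (1 / (4 + w ^ 2)) := by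
    rw [mul_one_div, div_le_div_iff₀ (by positivity) (by positivity)]
    have : (4 + 1 / X ^ 2) * (1 + (X * w) ^ 2) = 4 + w ^ 2 + (4 * X ^ 2 * w ^ 2 + 1 / X ^ 2) := by
      field_simp
      ring
    rw [this]
    have : 0 ≤ 4 * X ^ 2 * w ^ 2 + 1 / X ^ 2 := by positivity
    linarith
  have h2 : 1 / (4 + w ^ 2) ≤ (2 - (ρ:ℂ).re) / ((2 - (ρ:ℂ).re) ^ 2 + w ^ 2) := by
    have h3 : 0 < (2 - (ρ:ℂ).re) := by linarith
    rw [div_le_div_iff₀ (by positivity) (by positivity)]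
    nlinarith [sq_nonneg w, mul_pos h3 h3, mul_nonneg (sq_nonneg w) (by linarith : (0:ℝ) ≤ 1 - (ρ:ℂ).re)]
  have h4 : 1 / (1 + (X * w) ^ 2) ≤
      (4 + 1 / X ^ 2) * ((2 - (ρ:ℂ).re) / ((2 - (ρ:ℂ).re) ^ 2 + w ^ 2)) := by
    refine h1.trans ?_
    gcongr
  calc mx ρ * (1 / (1 + (X * w) ^ 2)) ≤ mx ρ * ((4 + 1 / X ^ 2) *
        ((2 - (ρ:ℂ).re) / ((2 - (ρ:ℂ).re) ^ 2 + w ^ 2))) := by gcongr
    _ = _ := by unfold fz; rw [hw]; ring

theorem summable_w {X : ℝ} (hX : 0 < X) (t : ℝ) {w : ZS → ℝ} {B : ℝ} (hw : ∀ ρ, |w ρ| ≤ B / (1 + zb X t ρ ^ 2)) :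
    Summable fun ρ : ZS => mx ρ * w ρ := by
  refine Summable.of_norm_bounded (g := fun ρ : ZS => B * ((4 + 1 / X ^ 2) * fz ρ t))
    (((fz_hasSum t).summable.mul_left _).mul_left _) fun ρ => ?_
  have hm : 0 ≤ mx (ρ : ℂ) := mx_nonneg _
  rw [Real.norm_eq_abs, abs_mul, abs_of_nonneg hm]
  have hB : 0 ≤ B := by
    have h1 := (abs_nonneg _).trans (hw ρ)
    have h2 : 0 < 1 + zb X t ρ ^ 2 := by positivity
    by_contra hneg
    push Not at hneg
    exact absurd h1 (not_le.2 (div_neg_of_neg_of_pos hneg h2))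
  calc mx ρ * |w ρ| ≤ mx ρ * (B / (1 + zb X t ρ ^ 2)) := mul_le_mul_of_nonneg_left (hw ρ) hm
    _ = B * (mx ρ * (1 / (1 + zb X t ρ ^ 2))) := by ring
    _ ≤ _ := mul_le_mul_of_nonneg_left (inv_fz hX t ρ) hB

theorem XX_pos {T c : ℝ} (hT : 3 ≤ T) (hc : 0 < c) : 0 < XX T c := by
  unfold XX
  have : 0 < Real.log T := Real.log_pos (by linarith)
  positivity

theorem za_nonneg {X : ℝ} (hX : 0 < X) (ρ : ℂ) : 0 ≤ za X ρ := by unfold za; positivity

theorem za_le {X : ℝ} (hX : 0 < X) (ρ : ZS) : za X ρ ≤ X / 2 := by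
  have h := zs_re ρ
  have h1 : |(ρ:ℂ).re - 1 / 2| ≤ 1 / 2 := abs_le.mpr ⟨by linarith, by linarith⟩
  unfold za
  nlinarith

open Classical in
/-- the summand of `near` -/
noncomputable def nt (T c Y t : ℝ) (ρ : ZS) : ℝ :=
  if Real.log T * |(ρ : ℂ).re - 1 / 2| < Y then 1 / (1 + zb (XX T c) t ρ ^ 2) else 0

open Classical in
/-- the summand of `far` -/
noncomputable def ft (T c Y t : ℝ) (ρ : ZS) : ℝ :=
  if Real.log T * |(ρ : ℂ).re - 1 / 2| < Y then 0 else Real.exp (2 * za (XX T c) ρ) / (1 + zb (XX T c) t ρ ^ 2)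

theorem near_summable {T c : ℝ} (hT : 3 ≤ T) (hc : 0 < c) (Y t : ℝ) : Summable fun ρ : ZS => mx ρ * nt T c Y t ρ := by
  refine summable_w (B := 1) (XX_pos hT hc) t fun ρ => ?_
  unfold nt
  split_ifs
  · rw [abs_of_nonneg (by positivity)]
  · rw [abs_zero]; positivity

theorem far_summable {T c : ℝ} (hT : 3 ≤ T) (hc : 0 < c) (Y t : ℝ) : Summable fun ρ : ZS => mx ρ * ft T c Y t ρ := by
  refine summable_w (B := Real.exp (XX T c)) (XX_pos hT hc) t fun ρ => ?_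
  unfold ft
  split_ifs
  · rw [abs_zero]; positivity
  · rw [abs_of_nonneg (by positivity)]
    have h := za_le (XX_pos hT hc) ρ
    gcongr
    linarith

theorem near_eq (T c Y t : ℝ) : near T c Y t = ∑' ρ : ZS, mx ρ * nt T c Y t ρ := rfl

theorem far_eq (T c Y t : ℝ) : far T c Y t = ∑' ρ : ZS, mx ρ * ft T c Y t ρ := rfl

theorem near_nonneg (T c Y t : ℝ) : 0 ≤ near T c Y t := by
  rw [near_eq]
  refine tsum_nonneg fun ρ => mul_nonneg (mx_nonneg _) ?_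
  unfold nt
  split_ifs <;> positivity

theorem far_nonneg (T c Y t : ℝ) : 0 ≤ far T c Y t := by
  rw [far_eq]
  refine tsum_nonneg fun ρ => mul_nonneg (mx_nonneg _) ?_
  unfold ft
  split_ifs <;> positivity

theorem q0_summable {X : ℝ} (hX : 0 < X) (t : ℝ) : Summable fun ρ : ZS => mx ρ * qk 0 (zb X t ρ) := by
  refine summable_w (B := 21) hX t fun ρ => ?_
  have h := qk_bound 0 (zb X t ρ)
  rwa [Real.cosh_zero, mul_one] at h

/-- general comparison -/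
theorem loss_gen {T c Y t e B1 B2 : ℝ} (hT : 3 ≤ T) (hc : 0 < c) (he : 0 < e)
    (h : ∀ ρ : ZS, |qk 0 (zb (XX T c / e) t ρ) - qk (za (XX T c / e) ρ) (zb (XX T c / e) t ρ)| ≤
      B1 * nt T c Y t ρ + B2 * ft T c Y t ρ) :
    |Helper69.UG.NX (XX T c / e) t - (MM (XX T c / e) t - SS (XX T c / e) t)| ≤ B1 * near T c Y t + B2 * far T c Y t := by
  have hX : 0 < XX T c / e := div_pos (XX_pos hT hc) he
  have h1 := (q0_summable hX t).hasSum.sub (explicit_q hX t)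
  have h2 := ((near_summable hT hc Y t).hasSum.mul_left B1).add ((far_summable hT hc Y t).hasSum.mul_left B2)
  have h3 : Helper69.UG.NX (XX T c / e) t - (MM (XX T c / e) t - SS (XX T c / e) t) =
      ∑' ρ : ZS, (mx ρ * qk 0 (zb (XX T c / e) t ρ) - mx ρ * qk (za (XX T c / e) ρ) (zb (XX T c / e) t ρ)) :=
    h1.tsum_eq.symm
  rw [h3, near_eq, far_eq]
  have h4 : ∀ ρ : ZS, ‖mx ρ * qk 0 (zb (XX T c / e) t ρ) - mx ρ * qk (za (XX T c / e) ρ) (zb (XX T c / e) t ρ)‖ ≤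
      B1 * (mx ρ * nt T c Y t ρ) + B2 * (mx ρ * ft T c Y t ρ) := by
    intro ρ
    have hm : 0 ≤ mx (ρ : ℂ) := mx_nonneg _
    rw [← mul_sub, norm_mul, Real.norm_eq_abs, Real.norm_eq_abs, abs_of_nonneg hm]
    calc _ ≤ mx ρ * (B1 * nt T c Y t ρ + B2 * ft T c Y t ρ) := mul_le_mul_of_nonneg_left (h ρ) hm
      _ = _ := by ring
  rw [← Real.norm_eq_abs]
  exact tsum_of_norm_bounded h2 h4

theorem sq_cosh_le {a : ℝ} (ha : 0 ≤ a) : 3 * a ^ 2 * Real.cosh a ≤ Real.exp (2 * a) := by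
  have h1 : 1 + a + a ^ 2 / 2 + a ^ 3 / 6 + a ^ 4 / 24 ≤ Real.exp a := by
    have h := Real.sum_le_exp_of_nonneg ha 5
    simp only [Finset.sum_range_succ, Finset.sum_range_zero, Nat.factorial] at h
    norm_num at h
    linarith
  have h2 : 1 + 2 * a + 2 * a ^ 2 ≤ Real.exp (2 * a) := by
    have h := Real.quadratic_le_exp_of_nonneg (by positivity : 0 ≤ 2 * a)
    nlinarith
  have h3 : Real.exp a * Real.exp (-a) = 1 := by rw [← Real.exp_add]; simp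
  have h4 : Real.exp (2 * a) = Real.exp a * Real.exp a := by rw [← Real.exp_add]; ring_nf
  rw [Real.cosh_eq, h4]
  rw [h4] at h2
  have hE : 0 < Real.exp a := Real.exp_pos a
  generalize Real.exp a = E at *
  have h5 : Real.exp (-a) = 1 / E := by field_simp; linarith
  rw [h5]
  -- `3 a² (E + 1/E) / 2 ≤ E²`, i.e. `3 a² (E² + 1) ≤ 2 E³`
  have h6 : 3 * a ^ 2 * (E * E + 1) ≤ 2 * (E * E) * E := by
    have h7 : 3 * a ^ 2 * (1 + 1 / (1 + 2 * a + 2 * a ^ 2)) ≤ 2 * (1 + a + a ^ 2 / 2 + a ^ 3 / 6 + a ^ 4 / 24) := by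
      have hp : 0 < 1 + 2 * a + 2 * a ^ 2 := by positivity
      rw [show 1 + 1 / (1 + 2 * a + 2 * a ^ 2) = (2 + 2 * a + 2 * a ^ 2) / (1 + 2 * a + 2 * a ^ 2) by field_simp; ring,
        mul_div_assoc', div_le_iff₀ hp]
      nlinarith [sq_nonneg (a ^ 2 - 4), sq_nonneg (a - 2), mul_nonneg ha (sq_nonneg (a - 2)), mul_nonneg (sq_nonneg a) (sq_nonneg (a - 2)),
        mul_nonneg (pow_nonneg ha 3) (sq_nonneg (a - 2)), mul_nonneg (pow_nonneg ha 4) (sq_nonneg (a - 2)), pow_nonneg ha 3, pow_nonneg ha 4,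
        pow_nonneg ha 5]
    have h8 : 1 ≤ (E * E) * (1 / (1 + 2 * a + 2 * a ^ 2)) := by
      have hp : 0 < 1 + 2 * a + 2 * a ^ 2 := by positivity
      rw [mul_one_div, le_div_iff₀ hp]
      linarith
    have hEE : 0 < E * E := by positivity
    calc 3 * a ^ 2 * (E * E + 1) ≤ 3 * a ^ 2 * (E * E + (E * E) * (1 / (1 + 2 * a + 2 * a ^ 2))) := by gcongr
      _ = (E * E) * (3 * a ^ 2 * (1 + 1 / (1 + 2 * a + 2 * a ^ 2))) := by ring
      _ ≤ (E * E) * (2 * (1 + a + a ^ 2 / 2 + a ^ 3 / 6 + a ^ 4 / 24)) := by gcongr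
      _ ≤ (E * E) * (2 * E) := by gcongr
      _ = _ := by ring
  rw [show 3 * a ^ 2 * ((E + 1 / E) / 2) = 3 * a ^ 2 * (E * E + 1) / (2 * E) by field_simp, div_le_iff₀ (by positivity)]
  nlinarith

/-- the difference at one zero -/
theorem diff_le {T c Y t e C : ℝ} (hT : 3 ≤ T) (hc : 0 < c) (hY : 0 < Y) (hYc : Y ≤ c) (he1 : 1 ≤ e) (he2 : e ≤ 2) (hC : 0 ≤ C)
    (h2 : ∀ a b, |qk a b - qk 0 b| ≤ C * a ^ 2 * Real.cosh a / (1 + b ^ 2)) (ρ : ZS) :
    |qk 0 (zb (XX T c / e) t ρ) - qk (za (XX T c / e) ρ) (zb (XX T c / e) t ρ)| ≤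
      (C * Real.cosh 1 * (Y / c) ^ 2 * e ^ 2) * nt T c Y t ρ + (C / 3 * e ^ 2) * ft T c Y t ρ := by
  have hX := XX_pos hT hc
  have hL : 0 < Real.log T := Real.log_pos (by linarith)
  have he : 0 < e := by linarith
  have hb : 1 / (1 + zb (XX T c / e) t ρ ^ 2) ≤ e ^ 2 * (1 / (1 + zb (XX T c) t ρ ^ 2)) := by
    have e1 : zb (XX T c / e) t ρ = zb (XX T c) t ρ / e := by unfold zb; ring
    rw [e1, mul_one_div, div_le_div_iff₀ (by positivity) (by positivity), one_mul]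
    have e2 : e ^ 2 * (1 + (zb (XX T c) t ρ / e) ^ 2) = e ^ 2 + zb (XX T c) t ρ ^ 2 := by field_simp
    rw [e2]
    nlinarith
  have ha0 : 0 ≤ za (XX T c / e) ρ := za_nonneg (by positivity) _
  have hae : za (XX T c / e) ρ = za (XX T c) ρ / e := by unfold za; ring
  have haA : za (XX T c / e) ρ ≤ za (XX T c) ρ := by
    rw [hae]
    exact div_le_self (za_nonneg hX _) he1
  have h0 := h2 (za (XX T c / e) ρ) (zb (XX T c / e) t ρ)
  rw [abs_sub_comm] at h0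
  set a := za (XX T c / e) ρ with ha
  have hcosh : 0 < Real.cosh a := Real.cosh_pos _
  unfold nt ft
  split_ifs with hn
  · have h3 : a ≤ Y / c := by
      refine haA.trans ?_
      unfold za XX
      rw [div_mul_eq_mul_div]
      gcongr
    have h4 : Y / c ≤ 1 := (div_le_one hc).2 hYc
    have h5 : Real.cosh a ≤ Real.cosh 1 := by
      rw [Real.cosh_le_cosh, abs_of_nonneg ha0, abs_one]
      linarith
    calc _ ≤ C * a ^ 2 * Real.cosh a / (1 + zb (XX T c / e) t ρ ^ 2) := h0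
      _ = C * a ^ 2 * Real.cosh a * (1 / (1 + zb (XX T c / e) t ρ ^ 2)) := by ring
      _ ≤ C * (Y / c) ^ 2 * Real.cosh 1 * (e ^ 2 * (1 / (1 + zb (XX T c) t ρ ^ 2))) := by gcongr
      _ = _ := by ring
  · have h3 : 3 * a ^ 2 * Real.cosh a ≤ Real.exp (2 * za (XX T c) ρ) :=
      (sq_cosh_le ha0).trans (Real.exp_le_exp.2 (by linarith))
    calc _ ≤ C * a ^ 2 * Real.cosh a / (1 + zb (XX T c / e) t ρ ^ 2) := h0
      _ = C / 3 * (3 * a ^ 2 * Real.cosh a) * (1 / (1 + zb (XX T c / e) t ρ ^ 2)) := by ring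
      _ ≤ C / 3 * Real.exp (2 * za (XX T c) ρ) * (e ^ 2 * (1 / (1 + zb (XX T c) t ρ ^ 2))) := by gcongr
      _ = _ := by ring

/-- K3, from K2 -/
theorem loss_of (hK2 : ∃ C : ℝ, 0 < C ∧ ∀ a b, |qk a b - qk 0 b| ≤ C * a ^ 2 * Real.cosh a / (1 + b ^ 2)) :
    ∃ C : ℝ, 0 < C ∧ ∀ T c Y t e : ℝ, 3 ≤ T → 0 < c → 0 < Y → Y ≤ c → e = 1 ∨ e = 2 →
    |Helper69.UG.NX (XX T c / e) t - (MM (XX T c / e) t - SS (XX T c / e) t)| ≤ C * ((Y / c) ^ 2 * near T c Y t + far T c Y t) := by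
  obtain ⟨C, hC, h2⟩ := hK2
  refine ⟨4 * C * Real.cosh 1, by positivity, fun T c Y t e hT hc hY hYc he => ?_⟩
  have he1 : 1 ≤ e := by rcases he with rfl | rfl <;> norm_num
  have he2 : e ≤ 2 := by rcases he with rfl | rfl <;> norm_num
  have he4 : e ^ 2 ≤ 4 := by rcases he with rfl | rfl <;> norm_num
  have h := loss_gen hT hc (by linarith) (diff_le (t := t) hT hc hY hYc he1 he2 hC.le h2)
  have hch := Real.one_le_cosh 1
  have hn := near_nonneg T c Y t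
  have hf := far_nonneg T c Y t
  refine h.trans ?_
  have h3 : C * Real.cosh 1 * (Y / c) ^ 2 * e ^ 2 * near T c Y t ≤ C * Real.cosh 1 * (Y / c) ^ 2 * 4 * near T c Y t := by gcongr
  have h4 : C / 3 * e ^ 2 * far T c Y t ≤ 4 * C * Real.cosh 1 * far T c Y t := by
    have h5 : C / 3 * e ^ 2 ≤ 4 * C * Real.cosh 1 := by
      calc C / 3 * e ^ 2 ≤ C / 3 * 4 := by gcongr
        _ ≤ 4 * C * 1 := by linarith
        _ ≤ 4 * C * Real.cosh 1 := by gcongr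
    gcongr
  calc _ ≤ C * Real.cosh 1 * (Y / c) ^ 2 * 4 * near T c Y t + 4 * C * Real.cosh 1 * far T c Y t := add_le_add h3 h4
    _ = _ := by ring

/-- K4, from K1 and K2 with the constant 3 -/
theorem near_of (hK1 : ∃ c1 : ℝ, 0 < c1 ∧ ∀ b, c1 / (1 + b ^ 2) ≤ qk 0 b)
    (hK2 : ∀ a b, |qk a b - qk 0 b| ≤ 3 * a ^ 2 * Real.cosh a / (1 + b ^ 2)) :
    ∃ C c2 : ℝ, 0 < C ∧ 0 < c2 ∧ ∀ T c Y t : ℝ, 3 ≤ T → 0 < c → 0 < Y → Y ≤ c2 * c →
    near T c Y t ≤ C * (MM (XX T c) t - SS (XX T c) t + far T c Y t) := by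
  obtain ⟨c1, hc1, h1⟩ := hK1
  have hch : 0 < Real.cosh 1 := Real.cosh_pos 1
  have hch1 := Real.one_le_cosh 1
  -- `3 cosh 1 c2² ≤ c1 / 2`
  set c2 : ℝ := min 1 (c1 / (6 * Real.cosh 1)) with hc2
  have hc20 : 0 < c2 := by positivity
  have hc21 : c2 ≤ 1 := min_le_left _ _
  have hc22 : 3 * Real.cosh 1 * c2 ^ 2 ≤ c1 / 2 := by
    have h3 : c2 ≤ c1 / (6 * Real.cosh 1) := min_le_right _ _
    rw [le_div_iff₀ (by positivity)] at h3
    nlinarith
  refine ⟨2 / c1, c2, by positivity, hc20, fun T c Y t hT hc hY hYc => ?_⟩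
  have hX := XX_pos hT hc
  have hYc' : Y ≤ c := hYc.trans (by nlinarith)
  have hYd : Y / c ≤ c2 := by rwa [div_le_iff₀ hc]
  have h := loss_gen hT hc one_pos (diff_le (t := t) hT hc hY hYc' le_rfl (by norm_num) (by norm_num) hK2)
  rw [div_one] at h
  have hn := near_nonneg T c Y t
  have hf := far_nonneg T c Y t
  have h3 : c1 * near T c Y t ≤ Helper69.UG.NX (XX T c) t := by
    rw [near_eq, ← tsum_mul_left]
    unfold Pool.Agent.Helper69.UG.NX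
    refine Summable.tsum_le_tsum (fun ρ => ?_) ((near_summable hT hc Y t).mul_left _) (q0_summable hX t)
    have hm : 0 ≤ mx (ρ : ℂ) := mx_nonneg _
    rw [← mul_assoc, mul_comm c1, mul_assoc]
    refine mul_le_mul_of_nonneg_left ?_ hm
    unfold nt
    split_ifs
    · rw [mul_one_div]; exact h1 _
    · rw [mul_zero]; exact qk_zero_nonneg _
  have h4 := (abs_le.1 h).2
  have h5 : 3 * Real.cosh 1 * (Y / c) ^ 2 * 1 ^ 2 * near T c Y t ≤ c1 / 2 * near T c Y t := by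
    have h6 : (Y / c) ^ 2 ≤ c2 ^ 2 := by gcongr
    have h7 : 3 * Real.cosh 1 * (Y / c) ^ 2 * 1 ^ 2 ≤ c1 / 2 := by
      calc 3 * Real.cosh 1 * (Y / c) ^ 2 * 1 ^ 2 ≤ 3 * Real.cosh 1 * c2 ^ 2 * 1 ^ 2 := by gcongr
        _ ≤ c1 / 2 := by rw [one_pow, mul_one]; exact hc22
    gcongr
  have h8 : c1 / 2 * near T c Y t ≤ MM (XX T c) t - SS (XX T c) t + far T c Y t := by
    have h9 : (3:ℝ) / 3 * 1 ^ 2 * far T c Y t = far T c Y t := by ring
    linarith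
  rw [div_mul_eq_mul_div, le_div_iff₀ hc1]
  linarith

end Pool.Agent.Helper87.UG
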